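import Pool.Agent.Q170.SG.Tot
import Pool.Agent.Q280.AR.Unr

/-! Project SG (helper5), job LC: the cyclotomic auxiliary extension. -/

set_option autoImplicit false
set_option linter.unusedSectionVars false
set_option linter.deprecated false

namespace Pool.Agent.Q170.SG

open NumberField IsDedekindDomain Module Pool.Agent.Q5.BR Pool.Agent.Q92.AR Pool.Agent.Q5.SG
  Polynomial

/-- the prime `𝔮` of prime norm `q`, unramified in `K`, is totally ramified in `K(ζ_q)` -/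
theorem lc1 (K L : Type) [Field K] [NumberField K] [Field L] [NumberField L] [Algebra K L] (q : ℕ)
    [NeZero q] (hqp : q.Prime) [IsCyclotomicExtension {q} K L] (𝔮 : HeightOneSpectrum (𝓞 K))
    (hq𝔮 : (q : 𝓞 K) ∈ 𝔮.asIdeal) (hun : Pool.Agent.Y18.LC.Unram K q) :
    finrank K L = q - 1 ∧ TotRam 𝔮 L := by
  classical
  have hq0 : q ≠ 0 := hqp.ne_zero
  obtain ⟨𝔓, h𝔓⟩ := exists_over L 𝔮
  have hmem : ∀ x : 𝓞 K, algebraMap (𝓞 K) (𝓞 L) x ∈ 𝔓.asIdeal ↔ x ∈ 𝔮.asIdeal := by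
    intro x
    rw [← h𝔓]
    rfl
  have hz := IsCyclotomicExtension.zeta_spec q K L
  let ζ : 𝓞 L := hz.toInteger
  have hζ : IsPrimitiveRoot ζ q := hz.toInteger_isPrimitiveRoot
  have hq𝔓 : (q : 𝓞 L) ∈ 𝔓.asIdeal := by
    have h := (hmem (q : 𝓞 K)).2 hq𝔮
    rwa [map_natCast] at h
  -- `(1 - ζ) ^ (q - 1)` divides `q`
  have hprod : (q : 𝓞 L) = ∏ k ∈ Finset.range (q - 1), (1 - ζ ^ (k + 1)) := by
    have h1 : IsPrimitiveRoot ζ (q - 1 + 1) := by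
      rwa [Nat.sub_add_cancel hqp.one_le]
    rw [h1.prod_one_sub_pow_eq_order]
    have h2 : q - 1 + 1 = q := Nat.sub_add_cancel hqp.one_le
    exact_mod_cast h2.symm
  have hdvd : ∀ k : ℕ, (1 - ζ) ∣ (1 - ζ ^ k) := by
    intro k
    have h1 := sub_dvd_pow_sub_pow (1 : 𝓞 L) ζ k
    rwa [one_pow] at h1
  have h1ζ : (1 - ζ) ∈ 𝔓.asIdeal := by
    rw [hprod] at hq𝔓
    obtain ⟨k, hk, hk'⟩ := (Ideal.IsPrime.prod_mem_iff (hp := 𝔓.isPrime)).1 hq𝔓
    have hk1 : k + 1 < q := by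
      have := Finset.mem_range.1 hk
      omega
    have hcop : (k + 1).Coprime q := by
      refine Nat.Coprime.symm ((Nat.Prime.coprime_iff_not_dvd hqp).2 ?_)
      exact Nat.not_dvd_of_pos_of_lt (Nat.succ_pos k) hk1
    obtain ⟨m, -, hm⟩ := Nat.exists_mul_mod_eq_one_of_coprime hcop hqp.one_lt
    have h1 : (ζ ^ (k + 1)) ^ m = ζ := by
      rw [← pow_mul, ← Nat.mod_add_div ((k + 1) * m) q, hm, pow_add, pow_mul, hζ.pow_eq_one,
        one_pow, mul_one, pow_one]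
    have h2 := sub_dvd_pow_sub_pow (1 : 𝓞 L) (ζ ^ (k + 1)) m
    rw [one_pow, h1] at h2
    exact Ideal.mem_of_dvd _ h2 hk'
  have hpow : (q : 𝓞 L) ∈ 𝔓.asIdeal ^ (q - 1) := by
    rw [hprod]
    have h1 : (1 - ζ) ^ (q - 1) ∣ ∏ k ∈ Finset.range (q - 1), (1 - ζ ^ (k + 1)) := by
      have h2 := Finset.prod_dvd_prod_of_dvd (s := Finset.range (q - 1)) (fun _ => 1 - ζ)
        (fun k => 1 - ζ ^ (k + 1)) (fun k _ => hdvd (k + 1))
      rwa [Finset.prod_const, Finset.card_range] at h2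
    exact Ideal.mem_of_dvd _ h1 (Ideal.pow_mem_pow h1ζ _)
  have hle : 𝔮.asIdeal.map (algebraMap (𝓞 K) (𝓞 L)) ≤ 𝔓.asIdeal ^ (q - 1) := by
    obtain ⟨j, hj, hj'⟩ := exists_cofactor hq0 hun hq𝔮
    rw [Ideal.map_le_iff_le_comap]
    intro x hx
    change algebraMap (𝓞 K) (𝓞 L) x ∈ 𝔓.asIdeal ^ (q - 1)
    have h1 : algebraMap (𝓞 K) (𝓞 L) (x * j) ∈ 𝔓.asIdeal ^ (q - 1) := by
      obtain ⟨c, hc⟩ := hj' x hx
      rw [hc, map_mul, map_natCast]
      exact Ideal.mul_mem_right _ _ hpow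
    rw [map_mul, mul_comm] at h1
    have hup : 𝔓.asIdeal.IsPrime := 𝔓.isPrime
    rcases Ideal.IsPrime.mul_mem_pow 𝔓.asIdeal h1 with h8 | h8
    · exact absurd ((hmem j).1 h8) hj
    · exact h8
  have hfin : finrank K L ≤ q - 1 := by
    rw [(hz.powerBasis K).finrank, hz.powerBasis_dim K]
    have h1 : minpoly K (IsCyclotomicExtension.zeta q K L) ∣ cyclotomic q K := by
      refine minpoly.dvd K _ ?_
      rw [aeval_def, eval₂_eq_eval_map, map_cyclotomic]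
      exact hz.isRoot_cyclotomic hqp.pos
    have h2 := natDegree_le_of_dvd h1 (cyclotomic_ne_zero q K)
    rwa [natDegree_cyclotomic, Nat.totient_prime hqp] at h2
  exact totRam h𝔓 hle hfin

theorem lc : S_LC := by
  intro K _ _ 𝔮 v hv𝔮 hqp hun hv
  have : NeZero (Ideal.absNorm 𝔮.asIdeal) := ⟨hqp.ne_zero⟩
  have : NumberField (CyclotomicField (Ideal.absNorm 𝔮.asIdeal) K) :=
    IsCyclotomicExtension.numberField {Ideal.absNorm 𝔮.asIdeal} K _
  obtain ⟨h1, h2⟩ := lc1 K (CyclotomicField (Ideal.absNorm 𝔮.asIdeal) K)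
    (Ideal.absNorm 𝔮.asIdeal) hqp 𝔮 (Ideal.absNorm_mem _) hun
  obtain ⟨w, hw⟩ := exists_over (CyclotomicField (Ideal.absNorm 𝔮.asIdeal) K) v
  exact ⟨CyclotomicField (Ideal.absNorm 𝔮.asIdeal) K, inferInstance, inferInstance, inferInstance,
    h1, h2, w, hw,
    Pool.Agent.Q280.AR.unr1 K _ (Ideal.absNorm 𝔮.asIdeal) v hv w hw⟩

end Pool.Agent.Q170.SG
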