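import Pool.Agent.Q5.SG.Stm2
import Pool.Agent.Q285.EX.Apx

/-! Project SG (helper5), job SW: moving a divisor. -/

set_option autoImplicit false
set_option linter.unusedSectionVars false

namespace Pool.Agent.Q170.SG

open NumberField IsDedekindDomain Pool.Agent.Q92.AR Pool.Agent.Q5.SG

theorem sw : S_SW := by
  intro K _ _ _ N N' hN' hNN' γ hγ
  classical
  have hN : N ≠ 0 := fun h => hN' (by rw [h] at hNN'; exact Nat.eq_zero_of_zero_dvd hNN')
  set T := Pool.Agent.Q285.EX.pN K N' hN' with hT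
  obtain ⟨n, hn0, hn⟩ := Pool.Agent.Q285.EX.exists_exp_le (F := K) T hN'
  -- exponents of `γ⁻¹`
  have hval : ∀ v : HeightOneSpectrum (𝓞 K), v.valuation K ((γ⁻¹ : Kˣ) : K) =
      WithZero.exp (-(prin γ⁻¹ v)) := fun v => Pool.Agent.Q125.AR.valuation_eq_exp γ⁻¹ v
  set n' : ℕ := n + ∑ v ∈ T, (prin γ⁻¹ v).natAbs + 1 with hn'
  have h1 : ∀ v ∈ T, WithZero.exp (-(n' : ℤ)) < v.valuation K ((γ⁻¹ : Kˣ) : K) := by
    intro v hv
    rw [hval v, WithZero.exp_lt_exp]
    have h2 : (prin γ⁻¹ v).natAbs ≤ ∑ v ∈ T, (prin γ⁻¹ v).natAbs :=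
      Finset.single_le_sum (f := fun v => (prin γ⁻¹ v).natAbs) (fun _ _ => Nat.zero_le _) hv
    omega
  have h2 : ∀ v ∈ T, WithZero.exp (-(n' : ℤ)) ≤ v.valuation K (N' : K) := by
    intro v hv
    refine le_trans ?_ (hn v hv)
    rw [WithZero.exp_le_exp]
    omega
  obtain ⟨x, hx, hxa⟩ := Pool.Agent.Q285.EX.approx T
    (fun v => if (N : 𝓞 K) ∈ v.asIdeal then 1 else ((γ⁻¹ : Kˣ) : K)) n'
  have hle : ∀ v : HeightOneSpectrum (𝓞 K), v.valuation K (N' : K) ≤ v.valuation K (N : K) := by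
    intro v
    obtain ⟨c, rfl⟩ := hNN'
    rw [Nat.cast_mul, map_mul]
    refine mul_le_of_le_one_right' ?_
    have h := v.valuation_le_one (K := K) (c : 𝓞 K)
    simpa using h
  have hmemT : ∀ v : HeightOneSpectrum (𝓞 K), v ∈ T ↔ (N' : 𝓞 K) ∈ v.asIdeal :=
    fun v => Pool.Agent.Q285.EX.mem_pN hN' v
  have hsub : ∀ v : HeightOneSpectrum (𝓞 K), (N : 𝓞 K) ∈ v.asIdeal → v ∈ T := by
    intro v hv
    rw [hmemT]
    obtain ⟨c, rfl⟩ := hNN'
    rw [Nat.cast_mul]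
    exact Ideal.mul_mem_right _ _ hv
  have hcong : Cong N (x : K) := by
    intro v hv
    have h3 := hxa v (hsub v hv)
    simp only [if_pos hv] at h3
    exact h3.trans ((h2 v (hsub v hv)).trans (hle v))
  refine ⟨x, ⟨hcong, hx⟩, ?_⟩
  intro v hv
  have hvT := (hmemT v).2 hv
  have h5 : v.valuation K ((γ * x : Kˣ) : K) = 1 := by
    rw [Units.val_mul, map_mul]
    by_cases hvN : (N : 𝓞 K) ∈ v.asIdeal
    · rw [hγ v hvN, one_mul]
      exact val_eq_one hvN (hcong v hvN)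
    · have h3 := hxa v hvT
      simp only [if_neg hvN] at h3
      have h4 : v.valuation K ((x : K) - ((γ⁻¹ : Kˣ) : K)) < v.valuation K ((γ⁻¹ : Kˣ) : K) :=
        lt_of_le_of_lt h3 (h1 v hvT)
      have h6 := Valuation.map_add_eq_of_lt_right (v.valuation K) h4
      rw [sub_add_cancel] at h6
      rw [h6, ← map_mul, ← Units.val_mul, mul_inv_cancel, Units.val_one, map_one]
  rw [Pool.Agent.Q125.AR.valuation_eq_exp, ← WithZero.exp_zero] at h5
  have h6 := WithZero.exp_injective h5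
  omega

end Pool.Agent.Q170.SG
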