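import Pool.Agent.Q5.SG.Stm2

/-! Project SG (helper5): totally ramified primes. -/

set_option autoImplicit false
set_option linter.unusedSectionVars false
set_option linter.deprecated false

namespace Pool.Agent.Q170.SG

open NumberField IsDedekindDomain Module Pool.Agent.Q5.BR Pool.Agent.Q92.AR Pool.Agent.Q5.SG

section
variable {K L : Type} [Field K] [NumberField K] [Field L] [NumberField L] [Algebra K L]

/-- there is a prime above `v` -/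
theorem exists_over (L : Type) [Field L] [NumberField L] [Algebra K L]
    (v : HeightOneSpectrum (𝓞 K)) : ∃ w : HeightOneSpectrum (𝓞 L), w.under (𝓞 K) = v := by
  have hvm : v.asIdeal.IsMaximal := v.isMaximal
  obtain ⟨P, hP, hPw⟩ := Ideal.exists_ideal_over_maximal_of_isIntegral (S := 𝓞 L) v.asIdeal (by
    rw [(RingHom.injective_iff_ker_eq_bot _).1 (FaithfulSMul.algebraMap_injective (𝓞 K) (𝓞 L))]
    exact bot_le)
  have hP0 : P ≠ ⊥ := by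
    rintro rfl
    apply v.ne_bot
    rw [← hPw, ← RingHom.ker_eq_comap_bot]
    exact (RingHom.injective_iff_ker_eq_bot _).1 (FaithfulSMul.algebraMap_injective (𝓞 K) (𝓞 L))
  exact ⟨⟨P, hP.isPrime, hP0⟩, HeightOneSpectrum.ext hPw⟩

theorem sum_ef (v : HeightOneSpectrum (𝓞 K)) :
    ∑ w ∈ above L v, Ideal.ramificationIdx' v.asIdeal w.asIdeal * rdeg K w = finrank K L := by
  have hvm : v.asIdeal.IsMaximal := v.isMaximal
  rw [← Ideal.sum_ramification_inertia (𝓞 L) K L v.ne_bot]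
  refine Finset.sum_bij (fun w _ => w.asIdeal) ?_ ?_ ?_ ?_
  · intro w hw
    rw [IsDedekindDomain.mem_primesOverFinset_iff v.ne_bot]
    refine ⟨w.isPrime, ⟨?_⟩⟩
    rw [← mem_above.1 hw]
    rfl
  · intro w _ w' _ h
    exact HeightOneSpectrum.ext h
  · intro P hP
    rw [IsDedekindDomain.mem_primesOverFinset_iff v.ne_bot] at hP
    obtain ⟨hP1, hP2⟩ := hP
    refine ⟨⟨P, hP1, fun h => v.ne_bot ?_⟩, mem_above.2 (HeightOneSpectrum.ext ?_), rfl⟩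
    · rw [hP2.over, h]
      rw [eq_bot_iff]
      intro x hx
      rw [Ideal.mem_bot]
      have hx2 : algebraMap (𝓞 K) (𝓞 L) x = 0 := hx
      exact (map_eq_zero_iff _ (FaithfulSMul.algebraMap_injective (𝓞 K) (𝓞 L))).1 hx2
    · exact hP2.over.symm
  · intro w hw
    unfold rdeg
    rw [mem_above.1 hw]

theorem map_ne_bot (v : HeightOneSpectrum (𝓞 K)) :
    v.asIdeal.map (algebraMap (𝓞 K) (𝓞 L)) ≠ ⊥ := by
  intro h
  apply v.ne_bot
  rw [Ideal.map_eq_bot_iff_of_injective (FaithfulSMul.algebraMap_injective (𝓞 K) (𝓞 L))] at h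
  exact h

theorem le_e {v : HeightOneSpectrum (𝓞 K)} {w : HeightOneSpectrum (𝓞 L)} {n : ℕ}
    (h : v.asIdeal.map (algebraMap (𝓞 K) (𝓞 L)) ≤ w.asIdeal ^ n) :
    n ≤ Ideal.ramificationIdx' v.asIdeal w.asIdeal := by
  rw [Ideal.IsDedekindDomain.ramificationIdx'_eq_multiplicity (map_ne_bot v) w.isPrime]
  have hf : FiniteMultiplicity w.asIdeal (v.asIdeal.map (algebraMap (𝓞 K) (𝓞 L))) := by
    refine FiniteMultiplicity.of_prime_left w.prime ?_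
    rw [Ideal.zero_eq_bot]
    exact map_ne_bot v
  exact (hf.pow_dvd_iff_le_multiplicity).1 (Ideal.dvd_iff_le.2 h)

/-- A prime above `𝔮` with ramification index at least the degree: `𝔮` is totally ramified. -/
theorem totRam {𝔮 : HeightOneSpectrum (𝓞 K)} {𝔓 : HeightOneSpectrum (𝓞 L)} {n : ℕ}
    (h𝔓 : 𝔓.under (𝓞 K) = 𝔮)
    (hle : 𝔮.asIdeal.map (algebraMap (𝓞 K) (𝓞 L)) ≤ 𝔓.asIdeal ^ n) (hn : finrank K L ≤ n) :
    finrank K L = n ∧ TotRam 𝔮 L := by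
  classical
  have hsum := sum_ef (L := L) 𝔮
  have h1 : ∀ w ∈ above L 𝔮, 0 < Ideal.ramificationIdx' 𝔮.asIdeal w.asIdeal * rdeg K w := by
    intro w hw
    refine Nat.mul_pos ?_ (rdeg_pos w)
    refine le_e (n := 1) ?_
    rw [pow_one, Ideal.map_le_iff_le_comap, ← mem_above.1 hw]
    exact le_rfl
  have h2 : 𝔓 ∈ above L 𝔮 := mem_above.2 h𝔓
  rw [← Finset.add_sum_erase _ _ h2] at hsum
  have h3 := le_e hle
  have h4 := rdeg_pos (K := K) 𝔓
  have h5 : n ≤ Ideal.ramificationIdx' 𝔮.asIdeal 𝔓.asIdeal * rdeg K 𝔓 :=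
    h3.trans (Nat.le_mul_of_pos_right _ h4)
  have h6 : finrank K L = n := by omega
  have h7 : ∑ w ∈ (above L 𝔮).erase 𝔓, Ideal.ramificationIdx' 𝔮.asIdeal w.asIdeal * rdeg K w = 0 := by
    omega
  have h8 : ∀ w : HeightOneSpectrum (𝓞 L), w.under (𝓞 K) = 𝔮 → w = 𝔓 := by
    intro w hw
    by_contra hne
    have h9 : w ∈ (above L 𝔮).erase 𝔓 := Finset.mem_erase.2 ⟨hne, mem_above.2 hw⟩
    have h10 := (Finset.sum_eq_zero_iff.1 h7) w h9
    have h11 := h1 w (mem_above.2 hw)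
    omega
  have hn0 : 0 < finrank K L := Module.finrank_pos
  have h12 : rdeg K 𝔓 = 1 := by
    have h13 : Ideal.ramificationIdx' 𝔮.asIdeal 𝔓.asIdeal * rdeg K 𝔓 = n := by omega
    by_contra hne
    have h14 : 2 ≤ rdeg K 𝔓 := by omega
    have h15 : n * 2 ≤ Ideal.ramificationIdx' 𝔮.asIdeal 𝔓.asIdeal * rdeg K 𝔓 :=
      Nat.mul_le_mul h3 h14
    omega
  refine ⟨h6, 𝔓, h𝔓, h8, fun x => ?_⟩
  have h16 := absNorm_rdeg (K := K) 𝔓
  rw [h12, pow_one, h𝔓] at h16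
  have hcomap : 𝔓.asIdeal.comap (algebraMap (𝓞 K) (𝓞 L)) = 𝔮.asIdeal := by
    rw [← h𝔓]
    rfl
  let φ : (𝓞 K ⧸ 𝔮.asIdeal) →+* (𝓞 L ⧸ 𝔓.asIdeal) :=
    Ideal.quotientMap 𝔓.asIdeal (algebraMap (𝓞 K) (𝓞 L)) hcomap.ge
  have hinj : Function.Injective φ := Ideal.quotientMap_injective' hcomap.le
  have hfin : Finite (𝓞 L ⧸ 𝔓.asIdeal) := Ideal.finiteQuotientOfFreeOfNeBot 𝔓.asIdeal 𝔓.ne_bot
  have hfin' : Finite (𝓞 K ⧸ 𝔮.asIdeal) := Ideal.finiteQuotientOfFreeOfNeBot 𝔮.asIdeal 𝔮.ne_bot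
  have hcard : Nat.card (𝓞 K ⧸ 𝔮.asIdeal) = Nat.card (𝓞 L ⧸ 𝔓.asIdeal) := by
    rw [Ideal.absNorm_apply, Ideal.absNorm_apply, Submodule.cardQuot_apply,
      Submodule.cardQuot_apply] at h16
    exact h16.symm
  have hbij : Function.Bijective φ := (Nat.bijective_iff_injective_and_card φ).2 ⟨hinj, hcard⟩
  obtain ⟨y, hy⟩ := hbij.2 (Ideal.Quotient.mk 𝔓.asIdeal x)
  obtain ⟨y, rfl⟩ := Ideal.Quotient.mk_surjective y
  refine ⟨y, ?_⟩
  rw [← Ideal.Quotient.eq_zero_iff_mem, map_sub, ← hy]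
  change φ (Ideal.Quotient.mk _ y) - Ideal.Quotient.mk 𝔓.asIdeal (algebraMap (𝓞 K) (𝓞 L) y) = 0
  rw [Ideal.quotientMap_mk, sub_self]

/-- if `q` is unramified in `K` and lies in `𝔮`, then `(q) = 𝔮 J` with `J` not contained in `𝔮` -/
theorem exists_cofactor {q : ℕ} (hq : q ≠ 0) (hun : Pool.Agent.Y18.LC.Unram K q)
    {𝔮 : HeightOneSpectrum (𝓞 K)} (h : (q : 𝓞 K) ∈ 𝔮.asIdeal) :
    ∃ j : 𝓞 K, j ∉ 𝔮.asIdeal ∧ ∀ x ∈ 𝔮.asIdeal, (q : 𝓞 K) ∣ x * j := by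
  have h1 : Ideal.span {(q : 𝓞 K)} ≤ 𝔮.asIdeal := by
    rw [Ideal.span_singleton_le_iff_mem]
    exact h
  obtain ⟨J, hJ⟩ := Ideal.dvd_iff_le.2 h1
  have h2 : ¬ J ≤ 𝔮.asIdeal := by
    intro h3
    obtain ⟨J', rfl⟩ := Ideal.dvd_iff_le.2 h3
    have hq0 : Ideal.span {(q : 𝓞 K)} ≠ ⊥ := by
      rw [Ne, Ideal.span_singleton_eq_bot]
      exact_mod_cast hq
    have h4 : 𝔮.asIdeal * J' ≤ Ideal.span {(q : 𝓞 K)} := by
      intro x hx
      apply hun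
      refine ⟨2, ?_⟩
      rw [hJ, pow_two, ← mul_assoc]
      have h5 : x * x ∈ (𝔮.asIdeal * J') * (𝔮.asIdeal * J') := Ideal.mul_mem_mul hx hx
      have h6 : (𝔮.asIdeal * J') * (𝔮.asIdeal * J') ≤ 𝔮.asIdeal * 𝔮.asIdeal * J' := by
        have h7 : (𝔮.asIdeal * J') * (𝔮.asIdeal * J') = (𝔮.asIdeal * 𝔮.asIdeal * J') * J' := by ring
        rw [h7]
        exact Ideal.mul_le_left
      exact h6 h5
    rw [hJ] at h4 hq0
    have h5 := Ideal.dvd_iff_le.2 h4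
    obtain ⟨I, hI⟩ := h5
    have hne : 𝔮.asIdeal * J' ≠ 0 := by
      intro h0
      apply hq0
      rw [h0, mul_zero, Ideal.zero_eq_bot]
    have h6 : (𝔮.asIdeal * J') * 1 = (𝔮.asIdeal * J') * (𝔮.asIdeal * I) := by
      rw [mul_one]
      conv_lhs => rw [hI]
      ring
    have h7 := mul_left_cancel₀ hne h6
    have h8 : (1 : Ideal (𝓞 K)) ≤ 𝔮.asIdeal := by
      rw [h7]
      exact Ideal.mul_le_left
    exact 𝔮.isPrime.ne_top (top_le_iff.1 (by rw [← Ideal.one_eq_top]; exact h8))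
  obtain ⟨j, hj, hj𝔮⟩ := SetLike.not_le_iff_exists.1 h2
  refine ⟨j, hj𝔮, fun x hx => ?_⟩
  rw [← Ideal.mem_span_singleton, hJ]
  exact Ideal.mul_mem_mul hx hj

end

end Pool.Agent.Q170.SG
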