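import Pool.Agent.Q170.SG.UR0
import Pool.Agent.Q20.EX.All

/-! Project SG (helper5), job UR: a ray class character modulo `𝔮` is the Artin character of a
character unramified outside `𝔮`. -/

set_option autoImplicit false

namespace Pool.Agent.Q170.SG

theorem ur : Pool.Agent.Q5.SG.J_UR := ur0 fun F _ _ N χ => Pool.Agent.Q20.EX.all_EXI F N χ

end Pool.Agent.Q170.SG
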