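import Pool.Agent.Q5.SG.Stm2

/-! Project SG (helper5), job UR: a ray class character modulo `𝔮` is the Artin character of a
character unramified outside `𝔮`. -/

set_option autoImplicit false
set_option linter.unusedSectionVars false
set_option linter.deprecated false

namespace Pool.Agent.Q170.SG

open NumberField IsDedekindDomain Module Pool.Agent.Q92.AR Pool.Agent.Q5.SG

theorem val_pow_sub {K : Type} [Field K] [NumberField K] (𝔮 : HeightOneSpectrum (𝓞 K)) {x a : K}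
    (hx : 𝔮.valuation K x = 1) (ha : 𝔮.valuation K a = 1) (h : 𝔮.valuation K (x - a) < 1) (n : ℕ) :
    𝔮.valuation K (x ^ n - a ^ n) < 1 := by
  induction n with
  | zero =>
    rw [pow_zero, pow_zero, sub_self, map_zero]
    exact zero_lt_one
  | succ n ih =>
    have h1 : x ^ (n + 1) - a ^ (n + 1) = x * (x ^ n - a ^ n) + (x - a) * a ^ n := by ring
    rw [h1]
    refine lt_of_le_of_lt (Valuation.map_add _ _ _) (max_lt ?_ ?_)
    · rw [map_mul, hx, one_mul]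
      exact ih
    · rw [map_mul, map_pow, ha, one_pow, mul_one]
      exact h

/-- Fermat's little theorem at a prime -/
theorem fermat {K : Type} [Field K] [NumberField K] (𝔮 : HeightOneSpectrum (𝓞 K)) (x : K)
    (hx : 𝔮.valuation K x = 1) :
    𝔮.valuation K (x ^ (Ideal.absNorm 𝔮.asIdeal - 1) - 1) < 1 := by
  classical
  obtain ⟨a, ha⟩ := 𝔮.exists_valuation_sub_lt_of_integer (K := K) (x := x) hx.le 1
  rw [Units.val_one] at ha
  have ha1 : 𝔮.valuation K (algebraMap (𝓞 K) K a) = 1 := by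
    rw [← hx]
    refine Valuation.map_eq_of_sub_lt _ ?_
    rw [hx]
    exact ha
  have ha' : 𝔮.valuation K (x - algebraMap (𝓞 K) K a) < 1 := by
    rw [← Valuation.map_neg, neg_sub]
    exact ha
  have ha2 : a ∉ 𝔮.asIdeal := by
    intro h
    have h1 := (𝔮.valuation_lt_one_iff_mem (K := K) a).2 h
    rw [ha1] at h1
    exact lt_irrefl _ h1
  have hfin : Finite (𝓞 K ⧸ 𝔮.asIdeal) := Ideal.finiteQuotientOfFreeOfNeBot 𝔮.asIdeal 𝔮.ne_bot
  have h3 : a ^ (Ideal.absNorm 𝔮.asIdeal - 1) - 1 ∈ 𝔮.asIdeal := by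
    have hmax : 𝔮.asIdeal.IsMaximal := 𝔮.isMaximal
    let _ : Field (𝓞 K ⧸ 𝔮.asIdeal) := Ideal.Quotient.field 𝔮.asIdeal
    let _ : Fintype (𝓞 K ⧸ 𝔮.asIdeal) := Fintype.ofFinite _
    rw [← Ideal.Quotient.eq_zero_iff_mem, map_sub, map_pow, map_one, sub_eq_zero,
      Ideal.absNorm_apply, Submodule.cardQuot_apply, Nat.card_eq_fintype_card]
    refine FiniteField.pow_card_sub_one_eq_one _ ?_
    rw [Ne, Ideal.Quotient.eq_zero_iff_mem]
    exact ha2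
  have h4 : 𝔮.valuation K ((algebraMap (𝓞 K) K a) ^ (Ideal.absNorm 𝔮.asIdeal - 1) - 1) < 1 := by
    have h5 : 𝔮.valuation K (algebraMap (𝓞 K) K (a ^ (Ideal.absNorm 𝔮.asIdeal - 1) - 1)) < 1 :=
      (𝔮.valuation_lt_one_iff_mem (K := K) _).2 h3
    rwa [map_sub, map_pow, map_one] at h5
  have h6 : x ^ (Ideal.absNorm 𝔮.asIdeal - 1) - 1 =
      (x ^ (Ideal.absNorm 𝔮.asIdeal - 1) - algebraMap (𝓞 K) K a ^ (Ideal.absNorm 𝔮.asIdeal - 1)) +
        (algebraMap (𝓞 K) K a ^ (Ideal.absNorm 𝔮.asIdeal - 1) - 1) := by ring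
  rw [h6]
  exact lt_of_le_of_lt (Valuation.map_add _ _ _) (max_lt (val_pow_sub 𝔮 hx ha1 ha' _) h4)

/-- the existence theorem of class field theory -/
def EXI : Prop := ∀ (F : Type) [Field F] [NumberField F] (N : ℕ)
    (χ : Dv F →+ Additive ℂˣ), N ≠ 0 → (∀ x ∈ Ray F N, χ (prin x) = 0) → Pool.Agent.Q20.EX.IsArt N χ

theorem ur0 (hEXI : EXI) : J_UR := by
  intro hLC hLK hBS hIJ K _ _ 𝔮 hqp hun χ hχ
  obtain ⟨q, hq⟩ : ∃ q, q = Ideal.absNorm 𝔮.asIdeal := ⟨_, rfl⟩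
  have hq𝔮 : (q : 𝓞 K) ∈ 𝔮.asIdeal := by
    rw [hq]
    exact Ideal.absNorm_mem _
  obtain ⟨M, _, _, _, _, ψ, N', hN', hqN', hRam, hψ⟩ := hEXI K q χ
    (by rw [hq]; exact hqp.ne_zero) (by
      intro x hx
      refine hχ x (lt_of_le_of_lt (hx.1 𝔮 hq𝔮) ?_)
      have h := (𝔮.valuation_lt_one_iff_mem (K := K) (q : 𝓞 K)).2 hq𝔮
      simpa using h)
  obtain ⟨M₁, _, _, _, _, ψ₁, hinj, hRam₁, hψ₁⟩ := hIJ K M ψ N' hN' hRam
  have hχ₁ : ∀ D ∈ Pr K N', art ψ₁ D = χ D := fun D hD => (hψ₁ D hD).trans (hψ D hD)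
  refine ⟨M₁, _, inferInstance, inferInstance, inferInstance, ψ₁, N', hinj, hN', hRam₁, hχ₁, ?_⟩
  intro v hv
  have key : ∃ (L : Type) (_ : Field L) (_ : NumberField L) (_ : Algebra K L),
      finrank K L = Ideal.absNorm 𝔮.asIdeal - 1 ∧ TotRam 𝔮 L ∧
      ∃ w : HeightOneSpectrum (𝓞 L), w.under (𝓞 K) = v ∧
        ¬ v.asIdeal.map (algebraMap (𝓞 K) (𝓞 L)) ≤ w.asIdeal ^ 2 := by
    by_cases h : ((Ideal.absNorm 𝔮.asIdeal : ℕ) : 𝓞 K) ∈ v.asIdeal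
    · exact hLK K 𝔮 v hv hqp h
    · exact hLC K 𝔮 v hv hqp hun h
  obtain ⟨L, _, _, _, hfin, hTot, w, hw, hw'⟩ := key
  refine hBS K L M₁ ψ₁ hinj N' hN' hRam₁ χ hχ₁ 𝔮 hχ hTot ?_ v w hw hw'
  intro x hx
  rw [hfin]
  have h1 : (Ideal.absNorm 𝔮.asIdeal - 1) • χ (prin x) =
      χ (prin (x ^ (Ideal.absNorm 𝔮.asIdeal - 1))) := by
    rw [← map_nsmul]
    congr 1
    exact (map_nsmul (prinHom (F := K)) (Ideal.absNorm 𝔮.asIdeal - 1) (Additive.ofMul x)).symm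
  rw [h1]
  refine hχ _ ?_
  rw [Units.val_pow_eq_pow_val]
  exact fermat 𝔮 _ hx

end Pool.Agent.Q170.SG
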